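import Pool.Agent.H76.LZ.Fresh
import Pool.Agent.H76.LZ.Seq
import Pool.Agent.H76.LY.Block

/-! The probability that all rows of a block can be placed in a time cell: strong form. -/

namespace Pool.Agent.H76.LZ

open Finset Pool.Agent.H46.SR Pool.Agent.H46.TS Pool.Agent.H76.LY
open Pool.Agent.H76.LY.Par

variable {P : Par} {ψ : Fin (P.z ^ P.D) → Fin P.N} {i : ℕ}

/-- the resampled coordinates: scales `ks j`, and fine scales of lower level, inside `β` -/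
def D4 (F : P.Prof ψ i) (β : ℕ) : Set P.Co :=
  {c | c ∈ P.Db i β ∧ ((∃ j : Fin (P.d - 1), c.1.val = F.ks j.val) ∨
    (c.1.val ≤ F.k 0 ∧ P.lv c.1.val < i))}

theorem D4_sub (F : P.Prof ψ i) (β : ℕ) : D4 F β ⊆ P.Db i β := fun _ h => h.1

theorem D4_k (F : P.Prof ψ i) {β : ℕ} {c : P.Co} (h : c ∈ D4 F β) :
    c.1.val ≤ F.k (P.d - 1) := by
  rcases h.2 with ⟨j, hj⟩ | ⟨h1, _⟩
  · rw [hj]
    have h2 := j.2
    have h3 := (F.hks j.val (by omega)).2.1
    have h4 := k_le_last F ⟨j.val + 1, by omega⟩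
    exact h3.trans h4
  · have h2 := k_le_last F ⟨0, P.dpos⟩
    exact h1.trans h2

/-- the event that blocks the row -/
def AA (F : P.Prof ψ i) (β : ℕ) (v : P.Sp) (r : P.Rr) (w : P.Sp) : Prop :=
  P.Mat (mix (D4 F β) v w) ψ i β r ∧ ¬ P.Rep (mix (D4 F β) v w) ψ i (F.k 0) β r

theorem coord_eq (F : P.Prof ψ i) (β : ℕ) (v : P.Sp) {r : P.Rr} {w w' : P.Sp}
    (h : ∀ c ∈ Cz F r, w c = w' c) (k : Fin P.La) (x : Fin P.N) (l : Fin P.d) :
    P.fl (mix (D4 F β) v w) k x (ψ (P.lf r l)) = P.fl (mix (D4 F β) v w') k x (ψ (P.lf r l)) := by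
  apply MatchP_fl_congr
  by_cases hc : ((k, dv (P.T (P.lv k.val)) x, dv (P.U k.val) (ψ (P.lf r l))) : P.Co) ∈ D4 F β
  · rw [mix_mem hc, mix_mem hc]
    apply h
    unfold Cz
    rw [mem_filter]
    exact ⟨mem_univ _, D4_k F hc, l, rfl⟩
  · rw [mix_not_mem hc, mix_not_mem hc]

theorem AA_dep (F : P.Prof ψ i) (β : ℕ) (v : P.Sp) (r : P.Rr) (w w' : P.Sp)
    (h : ∀ c ∈ Cz F r, w c = w' c) : AA F β v r w ↔ AA F β v r w' := by
  have h1 : ∀ (k : Fin P.La) (x : Fin P.N) (l : Fin P.d),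
      P.fl (mix (D4 F β) v w) k x (ψ (P.lf r l)) =
      P.fl (mix (D4 F β) v w') k x (ψ (P.lf r l)) := fun k x l => coord_eq F β v h k x l
  unfold AA Mat Pool.Agent.H76.LY.Par.Rep hi
  simp only [h1]

/-- flips of level at least `i` at `x0`: only the coordinates of `D3` matter -/
theorem hi_D4 (F : P.Prof ψ i) {β : ℕ} (hβ : β < P.N / P.T i) (v w : P.Sp) (y : Fin P.N) :
    P.hi (mix (D4 F β) v w) i (P.x0 i β) y = P.hi (mix (D3 F β) v w) i (P.x0 i β) y := by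
  unfold hi
  apply Finset.sum_congr rfl
  intro k hk
  rw [mem_filter] at hk
  apply MatchP_fl_congr
  by_cases hc : ((k, dv (P.T (P.lv k.val)) (P.x0 i β), dv (P.U k.val) y) : P.Co) ∈ D3 F β
  · have hc4 : ((k, dv (P.T (P.lv k.val)) (P.x0 i β), dv (P.U k.val) y) : P.Co) ∈ D4 F β :=
      ⟨P.block_sub F hβ hc, Or.inl hc.1⟩
    rw [mix_mem hc, mix_mem hc4]
  · have hc4 : ((k, dv (P.T (P.lv k.val)) (P.x0 i β), dv (P.U k.val) y) : P.Co) ∉ D4 F β := by
      rintro ⟨_, h | h⟩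
      · exact hc ⟨h, rfl⟩
      · have h1 := h.2
        have h2 := hk.2
        simp only at h1
        omega
    rw [mix_not_mem hc, mix_not_mem hc4]

theorem mat_D4 (F : P.Prof ψ i) {β : ℕ} (hβ : β < P.N / P.T i) (v w : P.Sp) (r : P.Rr) :
    P.Mat (mix (D4 F β) v w) ψ i β r ↔ P.Mat (mix (D3 F β) v w) ψ i β r := by
  unfold Mat
  simp only [hi_D4 F hβ]

/-- the flips used by a repair -/
theorem fl_fine (F : P.Prof ψ i) {β : ℕ} {D D' : Set P.Co} {v w v' w' : P.Sp} {k : Fin P.La}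
    {x y : Fin P.N} (hx : x.val / P.T i = β) (hk : k.val ≤ F.k 0) (hlv : P.lv k.val < i)
    (hD : ∀ c : P.Co, c.1.val ≤ F.k 0 → P.lv c.1.val < i → c ∈ P.Db i β →
      mix D v w c = mix D' v' w' c) :
    P.fl (mix D v w) k x y = P.fl (mix D' v' w') k x y := by
  apply MatchP_fl_congr
  apply hD _ hk hlv
  refine ⟨hlv.le, ?_⟩
  show (x.val / P.T (P.lv k.val)) / (P.T i / P.T (P.lv k.val)) = β
  rw [Nat.div_div_eq_div_mul, Nat.mul_div_cancel' (P.T_dvd hlv.le)]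
  exact hx

theorem rep_congr (F : P.Prof ψ i) {β : ℕ} {D D' : Set P.Co} {v w v' w' : P.Sp} (r : P.Rr)
    (hD : ∀ c : P.Co, c.1.val ≤ F.k 0 → P.lv c.1.val < i → c ∈ P.Db i β →
      mix D v w c = mix D' v' w' c) :
    P.Rep (mix D v w) ψ i (F.k 0) β r ↔ P.Rep (mix D' v' w') ψ i (F.k 0) β r := by
  unfold Pool.Agent.H76.LY.Par.Rep
  apply exists_congr
  intro x
  apply and_congr_right
  intro hx
  apply exists_congr
  intro S
  apply and_congr_right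
  intro _
  apply forall_congr'
  intro l
  apply imp_congr_right
  intro _
  apply exists_congr
  intro k
  apply and_congr_right
  intro hk
  apply and_congr_right
  intro hlv
  rw [fl_fine F hx hk hlv hD]

theorem rep_D4 (F : P.Prof ψ i) {β : ℕ} (v w : P.Sp) (r : P.Rr) :
    P.Rep (mix (D4 F β) v w) ψ i (F.k 0) β r ↔ P.Rep (mix (P.Db i β) v w) ψ i (F.k 0) β r := by
  apply rep_congr F r
  intro c h1 h2 h3
  have h4 : c ∈ D4 F β := ⟨h3, Or.inr ⟨h1, h2⟩⟩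
  rw [mix_mem h3, mix_mem h4]

theorem av_AA (F : P.Prof ψ i) {β : ℕ} (hβ : β < P.N / P.T i) {r : P.Rr} (hr : Gd F r)
    (hrep : (P.T i : ℝ) * ((P.d * P.La : ℕ) : ℝ) ^ P.h * (1 / (P.Q : ℝ)) ^ P.h ≤ 1 / 2)
    (v : P.Sp) :
    1 / (2 ^ (P.d + 1) * (P.Q : ℝ)) ≤ av (fun w : P.Sp => ind (AA F β v r w)) := by
  have h1 : ∀ w : P.Sp, ind (AA F β v r w) =
      ind (P.Mat (mix (D3 F β) v w) ψ i β r) * ind (¬ P.Rep (mix (D4 F β) v w) ψ i (F.k 0) β r) := by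
    intro w
    rw [← ind_and, ← mat_D4 F hβ]
    rfl
  rw [av_congr h1, av_indep (D3 F β)]
  · have h2 := P.av_mat F hr β v
    have h3 : 1 / 2 ≤ av (fun w : P.Sp => ind (¬ P.Rep (mix (D4 F β) v w) ψ i (F.k 0) β r)) := by
      have h4 : ∀ w : P.Sp, ind (¬ P.Rep (mix (D4 F β) v w) ψ i (F.k 0) β r) =
          1 + (-1) * ind (P.Rep (mix (P.Db i β) v w) ψ i (F.k 0) β r) := by
        intro w
        rw [ind_not, rep_D4]
        ring
      rw [av_congr h4, av_add, av_const, av_mul_left]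
      have h5 := (P.av_rep F hr β v).trans hrep
      linarith
    have hQ : (0 : ℝ) < P.Q := by exact_mod_cast P.Q_pos
    have h4 : 1 / (2 ^ (P.d + 1) * (P.Q : ℝ)) = 1 / (2 ^ P.d * (P.Q : ℝ)) * (1 / 2) := by
      rw [pow_succ, one_div_mul_one_div]
      congr 1
      ring
    rw [h4]
    exact mul_le_mul h2 h3 (by norm_num) (le_trans (by positivity) h2)
  · intro w w'
    congr 1
    apply propext
    unfold Mat hi
    have h2 : ∀ (k : Fin P.La) (y : Fin P.N),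
        P.fl (mix (D3 F β) v (mix (D3 F β) w w')) k (P.x0 i β) y =
        P.fl (mix (D3 F β) v w') k (P.x0 i β) y := by
      intro k y
      apply MatchP_fl_congr
      by_cases hc : ((k, dv (P.T (P.lv k.val)) (P.x0 i β), dv (P.U k.val) y) : P.Co) ∈ D3 F β
      · rw [mix_mem hc, mix_mem hc, mix_mem hc]
      · rw [mix_not_mem hc, mix_not_mem hc]
    simp only [h2]
  · intro w w'
    congr 2
    apply propext
    apply rep_congr F r
    intro c h2 h3 h4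
    have hc4 : c ∈ D4 F β := ⟨h4, Or.inr ⟨h2, h3⟩⟩
    have hc3 : c ∉ D3 F β := by
      rintro ⟨⟨j, hj⟩, _⟩
      have h5 := j.2
      have h6 := (F.hks j.val (by omega)).2.2
      rw [← hj] at h6
      omega
    rw [mix_mem hc4, mix_mem hc4, mix_not_mem hc3]

/-- the bound for one block and one cell -/
noncomputable def pz (P : Par) (c : ℝ) : ℝ :=
  (1 - c * (1 / (2 ^ (P.d + 1) * (P.Q : ℝ)))) ^ (P.z ^ (P.τ + 1))

theorem block (F : P.Prof ψ i) {β : ℕ} (hβ : β < P.N / P.T i) {c : ℝ} (hc0 : 0 ≤ c)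
    (hc1 : c ≤ 1) (hc : c ≤ P.cst)
    (hrep : (P.T i : ℝ) * ((P.d * P.La : ℕ) : ℝ) ^ P.h * (1 / (P.Q : ℝ)) ^ P.h ≤ 1 / 2)
    (ω : P.Sp) :
    av (fun p : (Fin (P.z ^ (P.τ + 1)) → P.Rr) × P.Sp =>
      ind (∀ a, P.Plc (mix (P.Db i β) ω p.2) ψ i β (p.1 a))) ≤ pz P c := by
  set x : ℕ := P.z ^ (P.τ + 1) with hx
  have hQ : (1 : ℝ) ≤ (P.Q : ℝ) := by exact_mod_cast P.Q_pos
  have h2d : (1 : ℝ) ≤ 2 ^ (P.d + 1) := one_le_pow₀ (by norm_num)
  have hπ0 : (0 : ℝ) ≤ 1 / (2 ^ (P.d + 1) * (P.Q : ℝ)) := by positivity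
  have hπ1 : 1 / (2 ^ (P.d + 1) * (P.Q : ℝ)) ≤ 1 := by
    rw [div_le_one (by positivity)]
    nlinarith
  have h1 : ∀ v : P.Sp, av (fun p : (Fin x → P.Rr) × P.Sp =>
      ind (∀ a, ¬ (Gd F (p.1 a) ∧ AA F β v (p.1 a) p.2))) ≤
      (1 - c * (1 / (2 ^ (P.d + 1) * (P.Q : ℝ)))) ^ x := by
    intro v
    exact seq (fun r : P.Rr => Gd F r) (fun r => Cz F r)
      (fun r w => AA F β v r w) hπ0 hπ1 hc0 hc1
      (fun r _ w w' h => AA_dep F β v r w w' h)
      (fun r hr => av_AA F hβ hr hrep v) (fun l hl => hc.trans (av_fresh F l hl))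
  rw [av_prod]
  have h2 : ∀ rows : Fin x → P.Rr, av (fun w : P.Sp =>
      ind (∀ a, P.Plc (mix (P.Db i β) ω w) ψ i β (rows a))) ≤
      av (fun w1 : P.Sp => av (fun w2 : P.Sp =>
        ind (∀ a, ¬ (Gd F (rows a) ∧ AA F β (mix (P.Db i β) ω w1) (rows a) w2)))) := by
    intro rows
    rw [av_mix (D4 F β)]
    apply av_mono
    intro w1
    apply av_mono
    intro w2
    apply ind_mono
    intro h a
    rintro ⟨hg, hm, hr⟩
    apply hr
    rw [← block_mix (D4_sub F β)] at hm ⊢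
    exact P.det F hg hm (h a)
  refine (av_mono h2).trans ?_
  rw [block_comm]
  have h3 : ∀ w1 : P.Sp, av (fun rows : Fin x → P.Rr => av (fun w2 : P.Sp =>
        ind (∀ a, ¬ (Gd F (rows a) ∧ AA F β (mix (P.Db i β) ω w1) (rows a) w2)))) ≤
      (1 - c * (1 / (2 ^ (P.d + 1) * (P.Q : ℝ)))) ^ x := by
    intro w1
    have h4 := h1 (mix (P.Db i β) ω w1)
    rw [av_prod] at h4
    exact h4
  exact (av_mono h3).trans (av_const _).le

end Pool.Agent.H76.LZ
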