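import Pool.Agent.H76.LY.TupleP

/-! A random row is good and has no cell in common with given rows, with positive probability. -/

namespace Pool.Agent.H76.LZ

open Finset Pool.Agent.H46.SR Pool.Agent.H46.TS Pool.Agent.H76.LY
open Pool.Agent.H76.LY.Par

variable {P : Par} {ψ : Fin (P.z ^ P.D) → Fin P.N} {i : ℕ}

open scoped Classical in
/-- all coordinates at the cells of the leaves, of the scales up to `k (d - 1)` -/
noncomputable def Cz (F : P.Prof ψ i) (r : P.Rr) : Finset P.Co :=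
  univ.filter (fun c => c.1.val ≤ F.k (P.d - 1) ∧
    ∃ l : Fin P.d, c.2.2 = dv (P.U c.1.val) (ψ (P.lf r l)))

theorem k_le_last (F : P.Prof ψ i) (l : Fin P.d) : F.k l.val ≤ F.k (P.d - 1) := by
  have h1 := l.2
  rcases Nat.lt_or_ge l.val (P.d - 1) with h | h
  · exact (k_lt F h (by omega)).le
  · have : l.val = P.d - 1 := by omega
    rw [this]

theorem av_fresh (F : P.Prof ψ i) (L : List P.Rr) (hL : L.length ≤ P.z ^ (P.τ + 1)) :
    P.cst ≤ av (fun r : P.Rr => ind (Gd F r ∧ ∀ r' ∈ L, Disjoint (Cz F r) (Cz F r'))) := by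
  classical
  have hd := P.hd
  have hz0 : (0 : ℝ) < (P.z : ℝ) ^ P.D := by
    have : (0 : ℝ) < (P.z : ℝ) := by exact_mod_cast P.zpos
    positivity
  have hD0 : (0 : ℝ) < (P.D : ℝ) + 1 := by positivity
  obtain ⟨S, hSd⟩ : ∃ S : Finset ℕ, S = (L.toFinset ×ˢ (univ : Finset (Fin P.d))).image
      (fun p => (ψ (P.lf p.1 p.2)).val / P.U (F.k (P.d - 1) + 1)) := ⟨_, rfl⟩
  have hS : S.card ≤ P.d * P.d * P.z ^ (P.τ + 1) := by
    rw [hSd]
    refine card_image_le.trans ?_
    rw [card_product, card_univ, Fintype.card_fin]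
    have h1 : L.toFinset.card ≤ P.z ^ (P.τ + 1) := (List.toFinset_card_le L).trans hL
    calc L.toFinset.card * P.d ≤ P.z ^ (P.τ + 1) * P.d := Nat.mul_le_mul_right _ h1
      _ = 1 * P.d * P.z ^ (P.τ + 1) := by ring
      _ ≤ P.d * P.d * P.z ^ (P.τ + 1) := by
          apply Nat.mul_le_mul_right
          apply Nat.mul_le_mul_right
          omega
  have key := tuple (J := Unit) (V1 := ℕ) (V3 := ℕ) (z := P.z) (d := P.d) (D := P.D)
    (τ := P.τ) P.hz (by rw [Fintype.card_unit]; omega) (fun j => F.s j.val)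
    (fun j => F.hs j.val j.2) F.TT (fun j b => (ψ b).val / P.U (F.k j.val))
    (fun _ b => (ψ b).val / P.U (F.k (P.d - 1) + 1))
    (fun j hj b hb => F.hJ j.val hj j.2 b hb)
    (by
      intro j l b hb b' hbb
      have e1 : (ψ b').val / P.U (F.k (P.d - 1) + 1) = (ψ b).val / P.U (F.k (P.d - 1) + 1) := by
        by_cases hl : 1 ≤ l.val
        · have e2 := F.hb l.val hl l.2 b hb b' hbb
          have e3 := k_le_last F l
          exact TupleP_div P (by omega) e2
        · have e2 : l.val = 0 := by omega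
          have e3 : b' = b := by
            apply Fin.ext
            have e5 : b'.val / P.z ^ F.s l.val = b.val / P.z ^ F.s l.val := hbb
            rw [e2, F.hs0, pow_zero, Nat.div_one, Nat.div_one] at e5
            exact e5
          rw [e3]
      rw [e1]
      exact F.hJD b hb) S hS
  have hcst : P.cst ≤ 1 / ((P.D : ℝ) + 1) ^ P.d * ((F.TT.card : ℝ) / (P.z : ℝ) ^ P.D) -
      ((P.d : ℝ) + (P.d : ℝ) ^ 4) / P.z := by
    unfold cst
    have h1 : (P.z : ℝ) ^ P.D ≤ (F.TT.card : ℝ) * (2 * ((P.D : ℝ) + 1) ^ (P.La + 1)) := by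
      exact_mod_cast F.hTT
    have h2 : 1 / (2 * ((P.D : ℝ) + 1) ^ (P.La + 1)) ≤ (F.TT.card : ℝ) / (P.z : ℝ) ^ P.D := by
      rw [div_le_div_iff₀ (by positivity) hz0]
      linarith
    have h3 : 1 / (((P.D : ℝ) + 1) ^ P.d * (2 * ((P.D : ℝ) + 1) ^ (P.La + 1))) =
        1 / ((P.D : ℝ) + 1) ^ P.d * (1 / (2 * ((P.D : ℝ) + 1) ^ (P.La + 1))) := by
      rw [one_div_mul_one_div]
    rw [h3]
    have h4 : 0 ≤ 1 / ((P.D : ℝ) + 1) ^ P.d := by positivity
    have h5 := mul_le_mul_of_nonneg_left h2 h4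
    linarith
  refine hcst.trans (key.trans ?_)
  apply av_mono
  intro r
  apply ind_mono
  rintro ⟨h1, h2, h3⟩
  have h4 := h3 (P.lf r) (fun l => rfl)
  have hg : Gd F r := ⟨h1, h2, h4.1⟩
  refine ⟨hg, ?_⟩
  intro r' hr'
  rw [Finset.disjoint_left]
  intro c hc hc'
  unfold Cz at hc hc'
  rw [mem_filter] at hc hc'
  obtain ⟨-, hk, l, hl⟩ := hc
  obtain ⟨-, -, l', hl'⟩ := hc'
  apply h4.2 () l
  rw [hSd, mem_image]
  refine ⟨(r', l'), ?_, ?_⟩
  · rw [mem_product]
    exact ⟨List.mem_toFinset.mpr hr', mem_univ _⟩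
  · have h5 : (ψ (P.lf r' l')).val / P.U c.1.val = (ψ (P.lf r l)).val / P.U c.1.val :=
      congrArg Fin.val (hl'.symm.trans hl)
    exact TupleP_div P (by omega) h5

end Pool.Agent.H76.LZ
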