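import Pool.Agent.H76.LZ.Block
import Pool.Agent.H76.LY.Main

/-! The lower bound for given parameters: strong form. -/

namespace Pool.Agent.H76.LZ

open Finset Pool.Agent.H46.SR Pool.Agent.H46.TS Pool.Agent.H76.LY
open Pool.Agent.H76.LY.Par
open Pool.Agent.H76.LX (unionA)

variable (P : Par) {nb : ℕ}

theorem pz_nonneg {c : ℝ} (hc1 : c ≤ 1) : 0 ≤ pz P c := by
  have hQ : (1 : ℝ) ≤ P.Q := by exact_mod_cast P.Q_pos
  have h4 : (1 : ℝ) ≤ 2 ^ (P.d + 1) := one_le_pow₀ (by norm_num)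
  have h1 : 1 / (2 ^ (P.d + 1) * (P.Q : ℝ)) ≤ 1 := by
    rw [div_le_one (by positivity)]
    nlinarith
  have h0 : 0 ≤ 1 / (2 ^ (P.d + 1) * (P.Q : ℝ)) := by positivity
  have h2 : 0 ≤ 1 - c * (1 / (2 ^ (P.d + 1) * (P.Q : ℝ))) := by nlinarith
  unfold pz
  positivity

open scoped Classical in
theorem exists_om {v : ℕ} (hzb : 2 * (2 * P.D * (P.La + 1) + P.La) + 2 ≤ P.z) {c : ℝ}
    (hc0 : 0 ≤ c) (hc1 : c ≤ 1) (hc : c ≤ P.cst)
    (hrep : ∀ i < P.L,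
      (P.T i : ℝ) * ((P.d * P.La : ℕ) : ℝ) ^ P.h * (1 / (P.Q : ℝ)) ^ P.h ≤ 1 / 2)
    (hsum : ∑ i ∈ range P.L, (P.N : ℝ) ^ (P.z ^ P.D) *
      (((nb : ℝ) ^ v / (v.factorial : ℝ)) * (((P.N / P.T i : ℕ) : ℝ) ^ v / (v.factorial : ℝ)) *
        pz P c ^ v) < 1) :
    ∃ ω : P.Om nb, ∀ i < P.L, ∀ ψ : Fin (P.z ^ P.D) → Fin P.N, StrictMono ψ →
      ¬ ∃ (f : Fin v → Fin nb) (g : Fin v → Fin (P.N / P.T i)), StrictMono f ∧ StrictMono g ∧
        ∀ l, P.Ev ψ i (f l) (g l) ω := by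
  by_contra hcon
  push Not at hcon
  obtain ⟨bad, hbad⟩ : ∃ bad : ℕ → (Fin (P.z ^ P.D) → Fin P.N) → P.Om nb → Prop,
      ∀ i ψ ω, bad i ψ ω ↔ (StrictMono ψ ∧ ∃ (f : Fin v → Fin nb)
        (g : Fin v → Fin (P.N / P.T i)), StrictMono f ∧ StrictMono g ∧
        ∀ l, P.Ev ψ i (f l) (g l) ω) := ⟨fun i ψ ω => _, fun _ _ _ => Iff.rfl⟩
  have h1 : ∀ ω : P.Om nb, (1 : ℝ) ≤ ∑ i ∈ range P.L,
      ∑ ψ : Fin (P.z ^ P.D) → Fin P.N, ind (bad i ψ ω) := by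
    intro ω
    obtain ⟨i, hi, ψ, hψ, f, g, hf, hg, hfg⟩ := hcon ω
    have h2 : ind (bad i ψ ω) = 1 := ind_pos ((hbad i ψ ω).mpr ⟨hψ, f, g, hf, hg, hfg⟩)
    calc (1 : ℝ) = ind (bad i ψ ω) := h2.symm
      _ ≤ ∑ ψ : Fin (P.z ^ P.D) → Fin P.N, ind (bad i ψ ω) :=
          Finset.single_le_sum (f := fun ψ => ind (bad i ψ ω)) (fun _ _ => ind_nonneg _)
            (mem_univ ψ)
      _ ≤ _ := Finset.single_le_sum
          (f := fun i => ∑ ψ : Fin (P.z ^ P.D) → Fin P.N, ind (bad i ψ ω))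
          (fun _ _ => Finset.sum_nonneg (fun _ _ => ind_nonneg _)) (mem_range.mpr hi)
  have h2 := av_mono h1
  rw [av_const, av_sum] at h2
  have h3 : ∀ i ∈ range P.L, av (fun ω : P.Om nb =>
      ∑ ψ : Fin (P.z ^ P.D) → Fin P.N, ind (bad i ψ ω)) ≤ (P.N : ℝ) ^ (P.z ^ P.D) *
      (((nb : ℝ) ^ v / (v.factorial : ℝ)) * (((P.N / P.T i : ℕ) : ℝ) ^ v / (v.factorial : ℝ)) *
        pz P c ^ v) := by
    intro i hi
    rw [mem_range] at hi
    rw [av_sum]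
    have h4 : ∀ ψ ∈ (univ : Finset (Fin (P.z ^ P.D) → Fin P.N)),
        av (fun ω : P.Om nb => ind (bad i ψ ω)) ≤
        ((nb : ℝ) ^ v / (v.factorial : ℝ)) * (((P.N / P.T i : ℕ) : ℝ) ^ v / (v.factorial : ℝ)) *
        pz P c ^ v := by
      intro ψ _
      have hpp := pz_nonneg P hc1
      by_cases hψ : StrictMono ψ
      · obtain ⟨F⟩ := P.exists_prof hzb ψ hψ hi
        refine le_trans (av_mono (fun ω => ind_mono ?_)) (unionA (v := v) (P.Ev ψ i) (P.DD i)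
          hpp ?_ ?_)
        · intro h
          exact ((hbad i ψ ω).mp h).2
        · intro b b' β β' hb hβ ω ω'
          exact P.ev_out ψ i b b' β β' hb hβ ω ω'
        · intro b β ω
          apply P.ev_av
          intro ω0
          exact block F β.2 hc0 hc1 hc (hrep i hi) ω0
      · have : ∀ ω : P.Om nb, ind (bad i ψ ω) = 0 := by
          intro ω
          apply ind_neg
          intro h
          exact hψ ((hbad i ψ ω).mp h).1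
        simp only [this]
        rw [av_const]
        positivity
    refine (Finset.sum_le_sum h4).trans (le_of_eq ?_)
    rw [Finset.sum_const, Finset.card_univ, nsmul_eq_mul]
    simp only [Fintype.card_fun, Fintype.card_fin]
    push_cast
    ring
  have h4 := h2.trans (Finset.sum_le_sum h3)
  linarith

theorem lower {v n' : ℕ} (hzb : 2 * (2 * P.D * (P.La + 1) + P.La) + 2 ≤ P.z) {c : ℝ}
    (hc0 : 0 ≤ c) (hc1 : c ≤ 1) (hc : c ≤ P.cst)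
    (hrep : ∀ i < P.L,
      (P.T i : ℝ) * ((P.d * P.La : ℕ) : ℝ) ^ P.h * (1 / (P.Q : ℝ)) ^ P.h ≤ 1 / 2)
    (hsum : ∑ i ∈ range P.L, (P.N : ℝ) ^ (P.z ^ P.D) *
      (((nb : ℝ) ^ v / (v.factorial : ℝ)) * (((P.N / P.T i : ℕ) : ℝ) ^ v / (v.factorial : ℝ)) *
        pz P c ^ v) < 1)
    (hn : nb * P.x ≤ n') (hm : P.z ^ P.D ≤ n')
    (hcount : 2 * P.x * (P.N / P.T (P.L - 1)) + (P.L - 1) * (v * P.z ^ P.ρ * (2 * P.x)) +
      v * P.T 0 < nb * P.x) :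
    P.N < Pool.Agent.H68.RS.f P.d n' := by
  obtain ⟨ω, hω⟩ := exists_om P hzb hc0 hc1 hc hrep hsum
  have hn1 : 1 ≤ n' := le_trans (pow_pos P.zpos P.D) hm
  have h1 := lt_R hn1 (P.MM_rows ω n') (P.no_copy ω hn hm hcount hω)
  exact lt_of_lt_of_le h1 (le_f hn1 (P.MM_rows ω n'))

end Pool.Agent.H76.LZ
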